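import Mathlib
import Pool.Agent.H21.Cg1

namespace Pool.Agent.Results.MP_dcd76c_al.Yes

/-- The commuting graph: vertices are the non-central elements, two distinct ones being adjacent
exactly when they commute. -/
def commGraph (G : Type) [Group G] : SimpleGraph {x : G // x ∉ Subgroup.center G} :=
  SimpleGraph.fromRel fun x y => x.1 * y.1 = y.1 * x.1

open Pool.Agent.H21.Cg in
theorem result (n : ℕ) (hn : 1 ≤ n) :
    ∃ (G : Type) (_ : Group G) (_ : Finite G), (∃ a b : G, a * b ≠ b * a) ∧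
      (commGraph G).cliqueNum = 2 * n + 1 ∧
      (commGraph G).chromaticNumber = ((2 * n + 1 : ℕ) : ℕ∞) := by
  classical
  obtain ⟨p, hp, d, hd⟩ := Nat.exists_prime_and_dvd (show 2 * n + 1 ≠ 1 by omega)
  haveI : Fact p.Prime := ⟨hp⟩
  haveI : NeZero d := ⟨by rintro rfl; omega⟩
  have hodd : Odd p := Odd.of_dvd_nat (odd_two_mul_add_one n) ⟨d, hd⟩
  obtain ⟨f, f1, f2, f3⟩ := torus hodd
  let G := P p × Multiplicative (ZMod d)
  have hcard : Fintype.card (ZMod p × Multiplicative (ZMod d)) = 2 * n + 1 := by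
    simp [hd]
  have hcol : (commGraph G).Colorable (2 * n + 1) := by
    rw [← hcard]
    refine (SimpleGraph.Coloring.mk (α := ZMod p × Multiplicative (ZMod d))
      (fun x => (colM ((Quotient.out x.1.1 : (M p)ˣ) : M p), x.1.2)) ?_).colorable
    rintro ⟨⟨g, z⟩, hg⟩ ⟨⟨h, w⟩, hh⟩ hadj h0
    obtain ⟨h1, h2⟩ := (SimpleGraph.fromRel_adj _ _ _).1 hadj
    obtain ⟨h3, h4⟩ := Prod.mk.inj h0
    have h4' : z = w := h4
    subst h4'
    have hn1 : ∀ (g : P p) (z : Multiplicative (ZMod d)),
        ((g, z) : G) ∉ Subgroup.center G → g ≠ 1 := by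
      rintro _ z hz rfl
      exact hz (Subgroup.mem_center_iff.2 fun y => Prod.ext
        (show y.1 * 1 = 1 * y.1 by simp) (mul_comm y.2 z))
    have h5 : g * h = h * g := by
      rcases h2 with h2 | h2
      · exact congrArg Prod.fst h2
      · exact (congrArg Prod.fst h2).symm
    refine colM_ne hodd _ _ ?_ ?_ ?_ ?_ h3 <;> simp only [QuotientGroup.out_eq']
    · exact hn1 g z hg
    · exact hn1 h z hh
    · rintro rfl; exact h1 rfl
    · exact h5
  let F : ZMod p × Multiplicative (ZMod d) → {x : G // x ∉ Subgroup.center G} := fun x =>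
    ⟨(f x.1, x.2), fun h => by
      obtain ⟨y, hy⟩ := f3 x.1
      exact hy (congrArg Prod.fst (Subgroup.mem_center_iff.1 h (y, 1))).symm⟩
  have hF : Function.Injective F := fun x y h => by
    have h1 : ((f x.1, x.2) : G) = (f y.1, y.2) := congrArg Subtype.val h
    exact Prod.ext (f1 (Prod.mk.inj h1).1) (Prod.mk.inj h1).2
  have hcl : (commGraph G).IsClique (Finset.univ.image F : Finset _) := by
    intro a ha b hb hab
    simp only [Finset.coe_image, Finset.coe_univ, Set.image_univ] at ha hb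
    obtain ⟨x, rfl⟩ := ha
    obtain ⟨y, rfl⟩ := hb
    exact (SimpleGraph.fromRel_adj _ _ _).2 ⟨hab, Or.inl (Prod.ext (f2 _ _) (mul_comm x.2 y.2))⟩
  have h1 : 2 * n + 1 ≤ (commGraph G).cliqueNum := by
    have := hcl.card_le_cliqueNum
    rwa [Finset.card_image_of_injective _ hF, Finset.card_univ, hcard] at this
  have h2 := hcol.chromaticNumber_le
  have h3 := (commGraph G).cliqueNum_le_chromaticNumber
  obtain ⟨y, hy⟩ := f3 0
  refine ⟨G, inferInstance, inferInstance, ⟨(f 0, 1), (y, 1), fun h => hy (congrArg Prod.fst h)⟩,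
    le_antisymm (by exact_mod_cast h3.trans h2) h1, le_antisymm h2 (le_trans ?_ h3)⟩
  exact_mod_cast h1

end Pool.Agent.Results.MP_dcd76c_al.Yes
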